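import Pool.Agent.Q89.IS3

/-!
# The isomorphism problem for groups generated by finite automata is undecidable

A fixed counter machine with undecidable halting problem gives a fixed automaton and words `W(N)` in
its states such that `W(N)` has finite order if and only if the machine stops on the input `N`.
Adding `2 N + 2` letters on which the old states act trivially and one state `z` permuting these
letters cyclically, with the states occurring in `W(N)` as sections, gives an automaton whose group
is the direct product of the fixed group `G` and a cyclic group, infinite if and only if the machine
does not stop. It is isomorphic to `G × ℤ` if and only if the machine does not stop.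
-/

namespace Pool.Agent.Results.MP_56d946_al.IsoUndecidable

open Pool.Agent.Q89.IS

/-- There is a finite invertible automaton `B` such that no computable function tells from the table
of a finite invertible automaton `A` whether the groups generated by `A` and by `B` are
isomorphic. -/
theorem result :
    ∃ (k c : ℕ) (B : Atm (Fin k) (Fin c)), 2 ≤ c ∧
      ¬ ∃ f : ℕ × ℕ × List (List (ℕ × ℕ)) → Bool, Computable f ∧
        ∀ (m d : ℕ) (A : Atm (Fin m) (Fin d)), 2 ≤ d →
          (f (m, d, A.table) = true ↔ Nonempty (A.grp ≃* B.grp)) :=
  isomorphism_undecidable

end Pool.Agent.Results.MP_56d946_al.IsoUndecidable
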